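import Pool.Agent.MWGI.StmtsE

/-!
# MWGI, row TRE: the right state
-/

namespace Pool.Agent.MWGI.H77

open Pool.Agent.Helper14_MV Pool.Agent.Helper2_MV Pool.Agent.MVO Pool.Agent.MWL Pool.Agent.MWS
  Pool.Agent.MWH Pool.Agent.MWGI

/-- the base of a larger congruence -/
theorem bi_up {n : ℕ} {β θ : FIC} (hle : β ≤ θ) (hB : BI n (RR β)) : BI n (RR θ) where
  pos := hB.pos
  per := hle _ _ hB.per
  r := hle _ _ hB.r
  hh := hle _ _ hB.hh
  rn := hle _ _ hB.rn
  l := hle _ _ hB.l
  it := fun p w w' q x hm => hle _ _ (hB.it p w w' q x hm)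
  f := fun p q c r x y hm => hle _ _ (hB.f p q c r x y hm)
  f' := fun p q c r x y hm => hle _ _ (hB.f' p q c r x y hm)
  fe := fun p q w r x a b h1 h2 h3 hm => hle _ _ (hB.fe p q w r x a b h1 h2 h3 hm)
  fe' := fun p q w r x a b h1 h2 h3 hm => hle _ _ (hB.fe' p q w r x a b h1 h2 h3 hm)

/-- the count before a letter is at most the count -/
theorem cb_le (l : List ℕ) (x a : ℕ) : cb l x a ≤ l.count x := by
  unfold MWGR.cb
  exact (List.takeWhile_prefix _).sublist.count_le x

/-- `Re` for all blocks is the edge `re` -/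
theorem re_edge {n k i p : ℕ} {S : List ℕ → List ℕ → Prop}
    (h : Wz n k i p Za (2 * n) 0 (2 * n) (2 * n) S) : EdIn n S (Ed.re k i p) := h

/-- backwards -/
theorem edge_re {n k i p : ℕ} {S : List ℕ → List ℕ → Prop}
    (h : EdIn n S (Ed.re k i p)) : Wz n k i p Za (2 * n) 0 (2 * n) (2 * n) S := h

/-- the symmetric relation of canonical words -/
theorem wz_symm {n k i p : ℕ} {Z : ℕ → Bool} {u v u' v' : ℕ} {θ : FIC}
    (h : Wz n k i p Z u v u' v' (RR θ)) : Wz n k i p Z u' v' u v (RR θ) := RR.symm h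

/-- **TRE** -/
theorem tre (hTYP : TypStmt) (hHYB : HybStmt) (hRTZ : Rtz0Stmt) (hNRW : NrwStmt) (hNWR : NwrStmt)
    (hMWR : MwrStmt) (hCSB : CsbStmt) (hMV1 : Mv1Stmt) : TreStmt := by
  intro n β hB k B B' hF i x a hi hxa hx2 ha1
  by_cases hst : (cb (B i) x a = (B i).count x ↔ cb (B' i) x a = (B' i).count x)
  · refine ⟨[], fun e he => absurd he List.not_mem_nil, fun θ _ _ => ⟨fun _ e he => absurd he List.not_mem_nil, ?_⟩⟩
    intro _ hn
    exact absurd hst hn
  obtain ⟨t1, t2⟩ := hTYP n k B B' hF i hi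
  obtain ⟨hNx, hHx⟩ := t1 x hx2
  obtain ⟨hNa, p, hp, hpi, hca⟩ := t2 a ha1
  obtain ⟨C, hOC, hCi, hpre, hsuf, hmem, hact⟩ := hHYB n k B B' hF i hi
  by_cases hxp : x ∈ B p
  · refine ⟨[], fun e he => absurd he List.not_mem_nil, fun θ hle _ => ⟨fun _ e he => absurd he List.not_mem_nil, ?_⟩⟩
    intro _ _ H haH
    have hap : a ∈ B p := by
      have h1 := hca p hp
      rw [if_pos (Or.inr rfl)] at h1
      exact List.count_pos_iff.1 (by omega)
    have h2 := hCSB n k θ C (bi_up hle hB) hOC i p x a hi hp (fun h => hpi h.symm) hxa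
      ((hmem p hp x).2 hxp) ((hmem p hp a).2 hap) H
    rw [hpre, hsuf] at h2
    exact hMV1 n k θ (bi_up hle hB) H _ _ x a haH h2
  have hA : Act k B i p x a := by
    refine ⟨hi, hp, fun h => hpi h.symm, hNx, hNa, hxa, hHx, hx2, hxp, ha1, ?_, ?_⟩
    · have h1 := hca p hp
      rw [if_pos (Or.inr rfl)] at h1
      exact h1
    · intro j hj h1 h2 h3
      have h4 := hca j hj
      rw [if_neg (fun h => by rcases h with h | h; exacts [h1 h, h2 h])] at h4
      exact absurd (List.count_pos_iff.2 h3) (by omega)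
  obtain ⟨k', i', p', hik, hpk, hip, hR⟩ := hRTZ n k i p (Zx B x) hi hp (fun h => hpi h.symm)
  refine ⟨[Ed.re k' i' p'], ?_, ?_⟩
  · intro e he
    rw [List.mem_singleton] at he
    rw [he]
    exact ⟨hik, hpk, hip⟩
  intro θ hle _
  have hBθ := bi_up hle hB
  refine ⟨?_, ?_⟩
  · intro hr e he
    rw [List.mem_singleton] at he
    rw [he]
    have h1 := hNRW n k θ B B' hBθ hF hr i p x a hA
    have hc2 : 2 ≤ (B' i).count x := by
      rcases hF.eq x hNx i hi with h | ⟨_, h, _⟩
      · unfold ty at h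
        omega
      · exact h
    have hb := cb_le (B i) x a
    have hb' := cb_le (B' i) x a
    have hRe : Re n k i p (Zx B x) (RR θ) := by
      by_cases hz : cb (B i) x a = (B i).count x
      · have hz' : ¬ cb (B' i) x a = (B' i).count x := fun h => hst ⟨fun _ => h, fun _ => hz⟩
        rw [hz, Nat.sub_self] at h1
        exact hNWR n k i p θ (Zx B x) hBθ hi hp (fun h => hpi h.symm) _ _ _ hx2 (by omega) (by omega) h1
      · have hz' : cb (B' i) x a = (B' i).count x := by
          by_contra hz'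
          exact hst ⟨fun h => absurd h hz, fun h => absurd h hz'⟩
        rw [hz', Nat.sub_self] at h1
        exact hNWR n k i p θ (Zx B x) hBθ hi hp (fun h => hpi h.symm) _ _ _ hc2 (by omega) (by omega)
          (wz_symm h1)
    exact re_edge ((hR θ _ _ _ _).1 hRe)
  · intro he _ H haH
    have h1 := edge_re (he _ (List.mem_singleton.2 rfl))
    have h2 : Re n k i p (Zx B x) (RR θ) := (hR θ _ _ _ _).2 h1
    have h3 := hMWR n k θ C hBθ hOC i p x a (hact p x a hA) (Zx B x) (fun j hj _ _ => by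
      unfold Zx
      rw [decide_eq_true_iff]
      exact (hmem j hj x).symm) h2 H haH
    rw [hpre, hsuf] at h3
    exact h3

end Pool.Agent.MWGI.H77
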